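import Pool.Agent.R773.FJ.TgpW

/-!
# Preimages in a split extension by a free product of permuted subgroups
-/

set_option autoImplicit false

namespace Pool.Agent.R933.FJ

open Pool.Agent.Y110.FJ Pool.Agent.R773.FJ

/-- `C` contains the metabelian groups -/
def HasMetabelian (C : ∀ (G : Type) [Group G], Prop) : Prop :=
  ∀ (G : Type) [Group G],
    (∀ x ∈ commutator G, ∀ y ∈ commutator G, x * y = y * x) → C G

/-- the subgroup generated by the subgroups `A i` is their free product -/
def FreeFam {G I : Type} [Group G] (A : I → Subgroup G) : Prop :=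
  Function.Injective (Monoid.CoprodI.lift (fun i => (A i).subtype))

theorem range_lift {G I : Type} [Group G] (A : I → Subgroup G) :
    (Monoid.CoprodI.lift (fun i => (A i).subtype)).range = ⨆ i, A i := by
  rw [Monoid.CoprodI.range_eq_iSup]
  simp

theorem isGP_of_free {G I : Type} [Group G] {A : I → Subgroup G} {N : Subgroup G}
    (h : FreeFam A) (hN : ⨆ i, A i = N) : IsGP N (⊥ : SimpleGraph I) A := by
  have hle : Subgroup.normalClosure (commRel (⊥ : SimpleGraph I) (fun i => ↥(A i))) ≤
      (Monoid.CoprodI.lift (fun i => (A i).subtype)).ker := by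
    apply Subgroup.normalClosure_le_normal
    rintro x ⟨v, w, a, b, hadj, -⟩
    exact absurd hadj (by simp)
  refine ⟨(QuotientGroup.lift _ (Monoid.CoprodI.lift (fun i => (A i).subtype)) hle :
    GrP (⊥ : SimpleGraph I) (fun i => ↥(A i)) →* G), ?_, ?_, ?_⟩
  · rw [injective_iff_map_eq_one]
    intro x hx
    obtain ⟨y, rfl⟩ := QuotientGroup.mk_surjective x
    have h1 : Monoid.CoprodI.lift (fun i => (A i).subtype) y = 1 := hx
    have h2 : y = 1 := h (by rw [h1, map_one])
    rw [h2]
    rfl
  · rw [← hN, ← range_lift]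
    ext x
    constructor
    · rintro ⟨y, rfl⟩
      obtain ⟨z, rfl⟩ := QuotientGroup.mk_surjective y
      exact ⟨z, rfl⟩
    · rintro ⟨z, rfl⟩
      exact ⟨QuotientGroup.mk z, rfl⟩
  · intro v a
    show Monoid.CoprodI.lift (fun i => (A i).subtype) (Monoid.CoprodI.of a) = a
    rw [Monoid.CoprodI.lift_of]
    rfl

section amb

variable {Γ Q I : Type} [Group Γ] [Group Q]

/-- free families in a subgroup -/
theorem free_subgroupOf {U : I → Subgroup Γ} (hU : FreeFam U) (R : Subgroup Γ)
    (hR : ∀ i, U i ≤ R) : FreeFam (fun i => (U i).subgroupOf R) := by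
  let e : ∀ i, ↥((U i).subgroupOf R) ≃* ↥(U i) := fun i => Subgroup.subgroupOfEquivOfLe (hR i)
  let j : Monoid.CoprodI (fun i => ↥((U i).subgroupOf R)) →* Monoid.CoprodI (fun i => ↥(U i)) :=
    Monoid.CoprodI.lift (fun i => Monoid.CoprodI.of.comp (e i).toMonoidHom)
  let j' : Monoid.CoprodI (fun i => ↥(U i)) →* Monoid.CoprodI (fun i => ↥((U i).subgroupOf R)) :=
    Monoid.CoprodI.lift (fun i => Monoid.CoprodI.of.comp (e i).symm.toMonoidHom)
  have hj1 : ∀ (i : I) (x : ↥((U i).subgroupOf R)),
      j (Monoid.CoprodI.of (M := fun i => ↥((U i).subgroupOf R)) (i := i) x) =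
        Monoid.CoprodI.of (M := fun i => ↥(U i)) (i := i) (e i x) := by
    intro i x
    simp [j]
  have hj1' : ∀ (i : I) (x : ↥(U i)),
      j' (Monoid.CoprodI.of (M := fun i => ↥(U i)) (i := i) x) =
        Monoid.CoprodI.of (M := fun i => ↥((U i).subgroupOf R)) (i := i) ((e i).symm x) := by
    intro i x
    simp [j']
  have hj : j'.comp j = MonoidHom.id _ := by
    apply Monoid.CoprodI.ext_hom
    intro i
    ext x : 1
    show j' (j (Monoid.CoprodI.of (M := fun i => ↥((U i).subgroupOf R)) (i := i) x)) =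
      Monoid.CoprodI.of (M := fun i => ↥((U i).subgroupOf R)) (i := i) x
    rw [hj1 i x, hj1' i (e i x), MulEquiv.symm_apply_apply]
  have hinj : Function.Injective j :=
    Function.LeftInverse.injective (g := j') (fun x => DFunLike.congr_fun hj x)
  have hcomp : R.subtype.comp (Monoid.CoprodI.lift (fun i => ((U i).subgroupOf R).subtype)) =
      (Monoid.CoprodI.lift (fun i => (U i).subtype)).comp j := by
    apply Monoid.CoprodI.ext_hom
    intro i
    ext x : 1
    show R.subtype (Monoid.CoprodI.lift (fun i => ((U i).subgroupOf R).subtype)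
      (Monoid.CoprodI.of (M := fun i => ↥((U i).subgroupOf R)) (i := i) x)) =
        Monoid.CoprodI.lift (fun i => (U i).subtype)
        (j (Monoid.CoprodI.of (M := fun i => ↥((U i).subgroupOf R)) (i := i) x))
    rw [Monoid.CoprodI.lift_of, hj1, Monoid.CoprodI.lift_of]
    rfl
  intro x y hxy
  apply hinj
  apply hU
  have h1 := congrArg R.subtype hxy
  have h2 := DFunLike.congr_fun hcomp x
  have h3 := DFunLike.congr_fun hcomp y
  rw [MonoidHom.comp_apply, MonoidHom.comp_apply] at h2 h3
  rw [← h2, ← h3, h1]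

/-- **preimages in a split extension by a free product whose factors are permuted** -/
theorem ambient {C : ∀ (G : Type) [Group G], Prop} (hC : ClosedE C) [MulAction Q I]
    (ev : Γ →* Q) (s : Q →* Γ) (hs : ∀ q, ev (s q) = q) (U : I → Subgroup Γ)
    (hfree : FreeFam U) (hU : ⨆ i, U i = ev.ker)
    (hconj : ∀ (q : Q) (i : I) (x : Γ), x ∈ U i ↔ s q * x * (s q)⁻¹ ∈ U (q • i))
    (hCU : ∀ i, C ↥(U i))
    (hcyc : ∀ (i : I) (q : Q), q • i = i → C ↥(U i ⊔ Subgroup.zpowers (s q)))
    (R : Subgroup Q) (hR : C ↥R) : C ↥(R.comap ev) := by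
  have hle : ∀ i, U i ≤ R.comap ev := by
    intro i x hx
    have h1 : x ∈ ev.ker := hU ▸ (le_iSup U i) hx
    rw [MonoidHom.mem_ker] at h1
    rw [Subgroup.mem_comap, h1]
    exact R.one_mem
  set Γ' := R.comap ev with hΓ'
  let ev' : ↥Γ' →* ↥R := ev.subgroupComap R
  let A : I → Subgroup ↥Γ' := fun i => (U i).subgroupOf Γ'
  have hA : FreeFam A := free_subgroupOf hfree Γ' hle
  have hN : ⨆ i, A i = ev'.ker := by
    apply le_antisymm
    · refine iSup_le fun i => ?_
      intro x hx
      have h1 : (x : Γ) ∈ ev.ker := hU ▸ (le_iSup U i) (Subgroup.mem_subgroupOf.1 hx)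
      rw [MonoidHom.mem_ker] at h1 ⊢
      apply Subtype.ext
      exact h1
    · intro x hx
      have h1 : (x : Γ) ∈ ⨆ i, U i := by
        rw [hU, MonoidHom.mem_ker]
        exact congrArg Subtype.val (MonoidHom.mem_ker.1 hx)
      have h2 : (⨆ i, A i).map Γ'.subtype = ⨆ i, U i := by
        rw [Subgroup.map_iSup]
        congr 1
        funext i
        rw [Subgroup.subgroupOf_map_subtype]
        exact inf_eq_left.2 (hle i)
      rw [← h2] at h1
      obtain ⟨y, hy, hyx⟩ := h1
      have : y = x := Subtype.ext hyx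
      rwa [this] at hy
  have hmem : ∀ q : R, s (q : Q) ∈ Γ' := by
    intro q
    rw [hΓ', Subgroup.mem_comap, hs]
    exact q.2
  refine tgp hC ev'.ker (⊥ : SimpleGraph I) A (isGP_of_free hA hN) ?_ ?_ ?_
  · intro g _
    set q : Q := ev (g : Γ) with hq
    have hqR : q ∈ R := g.2
    let t : ↥Γ' := ⟨s q, hmem ⟨q, hqR⟩⟩
    refine ⟨t * g⁻¹, ?_, MulAction.toPerm q, ?_, ?_, ?_⟩
    · rw [MonoidHom.mem_ker]
      apply Subtype.ext
      show ev (s q * (g : Γ)⁻¹) = 1
      rw [map_mul, hs, map_inv, ← hq, mul_inv_cancel]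
    · intro v w
      simp
    · intro v x
      rw [inv_mul_cancel_right]
      exact hconj q v x
    · intro v m hm hv
      rw [inv_mul_cancel_right]
      have hv' : q ^ m • v = v := by
        have : (MulAction.toPerm q : Equiv.Perm I) ^ m = MulAction.toPerm (q ^ m) :=
          (map_pow (MulAction.toPermHom Q I) q m).symm
        rw [this] at hv
        exact hv
      have h1 := hcyc v (q ^ m) hv'
      refine hC.base.of_injective _ _ ((Γ'.subtype.comp (Subgroup.subtype _)).codRestrict
        (U v ⊔ Subgroup.zpowers (s (q ^ m))) ?_) ?_ h1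
      · rintro ⟨x, hx⟩
        have h2 : (A v ⊔ Subgroup.zpowers (t ^ m)).map Γ'.subtype ≤
            U v ⊔ Subgroup.zpowers (s (q ^ m)) := by
          rw [Subgroup.map_sup, MonoidHom.map_zpowers]
          refine sup_le_sup ?_ ?_
          · rintro _ ⟨y, hy, rfl⟩
            exact Subgroup.mem_subgroupOf.1 hy
          · rw [map_pow, map_pow]
            exact le_refl _
        exact h2 ⟨x, hx, rfl⟩
      · intro x y hxy
        have := congrArg Subtype.val hxy
        exact Subtype.ext (Subtype.ext this)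
  · intro v
    exact hC.base.of_injective _ _ (Subgroup.subgroupOfEquivOfLe (hle v)).toMonoidHom
      (Subgroup.subgroupOfEquivOfLe (hle v)).injective (hCU v)
  · exact hC.base.of_injective _ _ (QuotientGroup.kerLift ev') (QuotientGroup.kerLift_injective ev')
      hR

/-- the metabelian groups `U ⟨s q⟩` -/
theorem metab {C : ∀ (G : Type) [Group G], Prop} (hM : HasMetabelian C)
    (ev : Γ →* Q) (s : Q →* Γ) (hs : ∀ q, ev (s q) = q) (U : Subgroup Γ)
    (hab : ∀ x ∈ U, ∀ y ∈ U, x * y = y * x) (hU : U ≤ ev.ker) (q : Q)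
    (hconj : ∀ x ∈ U, s q * x * (s q)⁻¹ ∈ U) (hconj' : ∀ x ∈ U, (s q)⁻¹ * x * s q ∈ U) :
    C ↥(U ⊔ Subgroup.zpowers (s q)) := by
  have hdec : ∀ x ∈ U ⊔ Subgroup.zpowers (s q), ∃ u ∈ U, ∃ k : ℤ, x = u * (s q) ^ k := by
    have hz : ∀ k : ℤ, ∀ x ∈ U, (s q) ^ k * x * ((s q) ^ k)⁻¹ ∈ U := by
      have hn : ∀ k : ℕ, ∀ x ∈ U, (s q) ^ k * x * ((s q) ^ k)⁻¹ ∈ U := by
        intro k
        induction k with
        | zero => intro x hx; simpa using hx
        | succ k ih =>
          intro x hx
          have := hconj _ (ih x hx)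
          rw [pow_succ']
          convert this using 1
          group
      have hn' : ∀ k : ℕ, ∀ x ∈ U, ((s q) ^ k)⁻¹ * x * (s q) ^ k ∈ U := by
        intro k
        induction k with
        | zero => intro x hx; simpa using hx
        | succ k ih =>
          intro x hx
          have := hconj' _ (ih x hx)
          rw [pow_succ]
          convert this using 1
          group
      intro k x hx
      cases k with
      | ofNat k => simpa using hn k x hx
      | negSucc k =>
        rw [zpow_negSucc, inv_inv]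
        exact hn' (k + 1) x hx
    intro x hx0
    have hx' : x ∈ Subgroup.closure ((U : Set Γ) ∪ (Subgroup.zpowers (s q) : Set Γ)) := by
      rw [← Subgroup.sup_eq_closure]
      exact hx0
    clear hx0
    induction hx' using Subgroup.closure_induction with
    | mem x hx =>
      rcases hx with hx | ⟨k, rfl⟩
      · exact ⟨x, hx, 0, by simp⟩
      · exact ⟨1, U.one_mem, k, by simp⟩
    | one => exact ⟨1, U.one_mem, 0, by simp⟩
    | mul x y hx1 hy1 hx hy =>
      obtain ⟨u, hu, k, rfl⟩ := hx
      obtain ⟨v, hv, l, rfl⟩ := hy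
      refine ⟨u * ((s q) ^ k * v * ((s q) ^ k)⁻¹), U.mul_mem hu (hz k v hv), k + l, ?_⟩
      rw [zpow_add]
      group
    | inv x hx1 hx =>
      obtain ⟨u, hu, k, rfl⟩ := hx
      refine ⟨(s q) ^ (-k) * u⁻¹ * ((s q) ^ (-k))⁻¹, hz (-k) _ (U.inv_mem hu), -k, ?_⟩
      rw [mul_inv_rev, inv_mul_cancel_right, zpow_neg]
  have hker : ∀ x ∈ U ⊔ Subgroup.zpowers (s q), ev x = 1 → x ∈ U := by
    intro x hx h1
    obtain ⟨u, hu, k, rfl⟩ := hdec x hx
    have h2 : ev u = 1 := hU hu
    rw [map_mul, h2, one_mul, map_zpow, hs] at h1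
    rw [← map_zpow, h1, map_one, mul_one]
    exact hu
  apply hM
  have hcm : ∀ x ∈ commutator ↥(U ⊔ Subgroup.zpowers (s q)), (x : Γ) ∈ U := by
    intro x hx
    apply hker _ x.2
    have hcom : ∀ a b : ↥(U ⊔ Subgroup.zpowers (s q)), ev a * ev b = ev b * ev a := by
      intro a b
      obtain ⟨u, hu, k, hak⟩ := hdec a a.2
      obtain ⟨v, hv, l, hbl⟩ := hdec b b.2
      have h2 : ev u = 1 := hU hu
      have h3 : ev v = 1 := hU hv
      rw [hak, hbl, map_mul, map_mul, h2, h3, one_mul, one_mul, map_zpow, map_zpow,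
        ← zpow_add, ← zpow_add, add_comm]
    have hle : commutator ↥(U ⊔ Subgroup.zpowers (s q)) ≤
        (ev.comp (Subgroup.subtype (U ⊔ Subgroup.zpowers (s q)))).ker := by
      rw [commutator_def, Subgroup.commutator_le]
      intro a _ b _
      rw [MonoidHom.mem_ker, commutatorElement_def]
      simp only [map_mul, map_inv, MonoidHom.comp_apply, Subgroup.coe_subtype]
      rw [hcom a b]
      group
    exact hle hx
  intro x hx y hy
  exact Subtype.ext (hab _ (hcm x hx) _ (hcm y hy))

end amb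

end Pool.Agent.R933.FJ
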