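import Pool.Agent.R933.FJ.Gen

/-!
# Polynomial rings in several variables and graded rings
-/

set_option autoImplicit false
set_option linter.unusedSimpArgs false

namespace Pool.Agent.R933.FJ

open Pool.Agent.Y110.FJ

section

variable {C : ∀ (G : Type) [Group G], Prop}

theorem C_of_map (hC : ClosedE C) {G H : Type} [Group G] [Group H] (f : G →* H)
    (hf : Function.Injective f) (K : Subgroup G) (h : C ↥(K.map f)) : C ↥K :=
  hC.base.of_injective _ _ (K.equivMapOfInjective f hf).toMonoidHom
    (K.equivMapOfInjective f hf).injective h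

theorem C_map (hC : ClosedE C) {G H : Type} [Group G] [Group H] (f : G →* H)
    (hf : Function.Injective f) (K : Subgroup G) (h : C ↥K) : C ↥(K.map f) :=
  hC.base.of_injective _ _ (K.equivMapOfInjective f hf).symm.toMonoidHom
    (K.equivMapOfInjective f hf).symm.injective h

theorem mapG2_comp {A B E : Type} [Ring A] [Ring B] [Ring E] (f : A →+* B) (g : B →+* E) :
    mapG2 (g.comp f) = (mapG2 g).comp (mapG2 f) := by
  ext x
  rfl

/-- embeddings in polynomial rings -/
theorem main_embed (hC : ClosedE C) (hM : HasMetabelian C) {A D : Type} [Ring A] [DivisionRing D]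
    (θ : A →+* Polynomial D) (hθ : Function.Injective θ) (G : Subgroup (G2 A))
    (hG : C ↥(G.map (mapG2 ((Polynomial.constantCoeff : Polynomial D →+* D).comp θ)))) : C ↥G := by
  apply C_of_map hC (mapG2 θ) (mapG2_injective hθ)
  apply main_div hC hM
  rw [Subgroup.map_map]
  rw [mapG2_comp] at hG
  exact hG

section mv

variable {R : Type} [CommRing R] [IsDomain R] {σ : Type}

/-- translation by a point -/
noncomputable def trl (p : σ → R) : MvPolynomial σ R →+* MvPolynomial σ R :=
  MvPolynomial.eval₂Hom MvPolynomial.C (fun i => MvPolynomial.C (p i) + MvPolynomial.X i)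

theorem trl_trl (p : σ → R) : (trl (fun i => - p i)).comp (trl p) = RingHom.id _ := by
  apply MvPolynomial.ringHom_ext
  · intro r
    simp [trl]
  · intro i
    simp [trl]

theorem trl_injective (p : σ → R) : Function.Injective (trl p) :=
  Function.LeftInverse.injective (g := trl (fun i => - p i))
    (fun x => DFunLike.congr_fun (trl_trl p) x)

/-- the field of fractions -/
abbrev FF (σ R : Type) [CommRing R] [IsDomain R] : Type := FractionRing (MvPolynomial σ R)

/-- restriction to a generic line through a point -/
noncomputable def gen (p : σ → R) : MvPolynomial σ R →+* Polynomial (FF σ R) :=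
  MvPolynomial.eval₂Hom
    (((Polynomial.C).comp (algebraMap (MvPolynomial σ R) (FF σ R))).comp MvPolynomial.C)
    (fun i => Polynomial.C (algebraMap (MvPolynomial σ R) (FF σ R) (MvPolynomial.C (p i))) +
      Polynomial.C (algebraMap (MvPolynomial σ R) (FF σ R) (MvPolynomial.X i)) * Polynomial.X)

theorem gen_one (p : σ → R) : (Polynomial.evalRingHom (1 : FF σ R)).comp (gen p) =
    (algebraMap (MvPolynomial σ R) (FF σ R)).comp (trl p) := by
  apply MvPolynomial.ringHom_ext
  · intro r
    simp [gen, trl]
  · intro i
    simp [gen, trl]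

theorem gen_zero (p : σ → R) :
    (Polynomial.constantCoeff : Polynomial (FF σ R) →+* FF σ R).comp (gen p) =
    ((algebraMap (MvPolynomial σ R) (FF σ R)).comp MvPolynomial.C).comp (MvPolynomial.eval p) := by
  apply MvPolynomial.ringHom_ext
  · intro r
    simp [gen]
  · intro i
    simp [gen]

theorem gen_injective (p : σ → R) : Function.Injective (gen p) := by
  have h1 : Function.Injective ((Polynomial.evalRingHom (1 : FF σ R)).comp (gen p)) := by
    rw [gen_one]
    exact (IsFractionRing.injective (MvPolynomial σ R) (FF σ R)).comp (trl_injective p)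
  intro x y hxy
  exact h1 (congrArg (Polynomial.evalRingHom (1 : FF σ R)) hxy)

theorem inj_const : Function.Injective
    ((algebraMap (MvPolynomial σ R) (FF σ R)).comp (MvPolynomial.C (σ := σ) (R := R))) :=
  (IsFractionRing.injective (MvPolynomial σ R) (FF σ R)).comp (MvPolynomial.C_injective σ R)

/-- **polynomial rings in several variables** -/
theorem main_mv (hC : ClosedE C) (hM : HasMetabelian C) (p : σ → R)
    (G : Subgroup (G2 (MvPolynomial σ R))) (hG : C ↥(G.map (mapG2 (MvPolynomial.eval p)))) :
    C ↥G := by
  apply main_embed hC hM (gen p) (gen_injective p)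
  rw [gen_zero, mapG2_comp, ← Subgroup.map_map]
  exact C_map hC _ (mapG2_injective inj_const) _ hG

theorem main_mv_top (hC : ClosedE C) (hM : HasMetabelian C) (h : C (G2 R)) :
    C (G2 (MvPolynomial σ R)) := by
  refine hC.base.of_injective _ _
    (Subgroup.topEquiv (G := G2 (MvPolynomial σ R))).symm.toMonoidHom
    (Subgroup.topEquiv (G := G2 (MvPolynomial σ R))).symm.injective ?_
  apply main_mv hC hM (fun _ => 0)
  exact hC.base.of_injective _ _ (Subgroup.subtype _) (Subgroup.subtype_injective _) h

end mv

section graded

variable {A D : Type} [Ring A] [DivisionRing D] (𝒜 : ℕ → AddSubgroup A) [GradedRing 𝒜]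
  (ι : A →+* D)

open DirectSum

/-- a homogeneous element of degree `n` is mapped to a monomial of degree `n` -/
noncomputable def mono (n : ℕ) : 𝒜 n →+ Polynomial D where
  toFun a := Polynomial.monomial n (ι (a : A))
  map_zero' := by simp
  map_add' a b := by simp

/-- the homomorphism given by the grading -/
noncomputable def grd : A →+* Polynomial D :=
  (DirectSum.toSemiring (fun n => mono 𝒜 ι n)
    (by
      show Polynomial.monomial 0 (ι (1 : A)) = 1
      rw [map_one]
      rfl)
    (by
      intro i j a b
      show Polynomial.monomial (i + j) (ι ((a : A) * (b : A))) =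
        Polynomial.monomial i (ι (a : A)) * Polynomial.monomial j (ι (b : A))
      rw [map_mul, Polynomial.monomial_mul_monomial])).comp
    (DirectSum.decomposeRingEquiv 𝒜 : A →+* ⨁ i, 𝒜 i)

theorem grd_coe (n : ℕ) (a : 𝒜 n) : grd 𝒜 ι (a : A) = Polynomial.monomial n (ι (a : A)) := by
  unfold grd
  rw [RingHom.comp_apply]
  have h1 : (DirectSum.decomposeRingEquiv 𝒜 : A →+* ⨁ i, 𝒜 i) (a : A) =
      DirectSum.of (fun i => 𝒜 i) n a := DirectSum.decompose_coe 𝒜 a
  rw [h1]
  simp [mono]

theorem grd_zero : (Polynomial.constantCoeff : Polynomial D →+* D).comp (grd 𝒜 ι) =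
    ι.comp (GradedRing.projZeroRingHom 𝒜) := by
  have h : ((Polynomial.constantCoeff : Polynomial D →+* D).comp (grd 𝒜 ι)).toAddMonoidHom =
      (ι.comp (GradedRing.projZeroRingHom 𝒜)).toAddMonoidHom := by
    ext a
    induction a using DirectSum.Decomposition.inductionOn 𝒜 with
    | zero => simp
    | homogeneous a =>
      rename_i n
      show (grd 𝒜 ι (a : A)).coeff 0 = ι (decompose 𝒜 (a : A) 0)
      rw [grd_coe, Polynomial.coeff_monomial]
      split_ifs with h0
      · subst h0
        rw [DirectSum.decompose_of_mem_same 𝒜 a.2]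
      · rw [DirectSum.decompose_of_mem_ne 𝒜 a.2 h0, map_zero]
    | add a b ha hb => rw [map_add, map_add, ha, hb]
  exact RingHom.ext fun a => DFunLike.congr_fun h a

/-- evaluation at one -/
noncomputable def evOne (D : Type) [DivisionRing D] : Polynomial D →+* D :=
  Polynomial.eval₂RingHom' (RingHom.id D) 1 (fun _ => Commute.one_right _)

theorem grd_one : (evOne D).comp (grd 𝒜 ι) = ι := by
  have h : ((evOne D).comp (grd 𝒜 ι)).toAddMonoidHom = ι.toAddMonoidHom := by
    ext a
    induction a using DirectSum.Decomposition.inductionOn 𝒜 with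
    | zero => simp
    | homogeneous a =>
      rename_i n
      show Polynomial.eval₂ (RingHom.id D) 1 (grd 𝒜 ι (a : A)) = ι (a : A)
      rw [grd_coe, Polynomial.eval₂_monomial]
      simp
    | add a b ha hb => rw [map_add, map_add, ha, hb]
  exact RingHom.ext fun a => DFunLike.congr_fun h a

theorem grd_injective (hι : Function.Injective ι) : Function.Injective (grd 𝒜 ι) := by
  have h1 : Function.Injective ((evOne D).comp (grd 𝒜 ι)) := by
    rw [grd_one]
    exact hι
  intro x y hxy
  exact h1 (congrArg (evOne D) hxy)

/-- **graded rings** -/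
theorem main_graded {C : ∀ (G : Type) [Group G], Prop} (hC : ClosedE C) (hM : HasMetabelian C)
    (hι : Function.Injective ι) (G : Subgroup (G2 A))
    (hG : C ↥(G.map (mapG2 (GradedRing.projZeroRingHom 𝒜)))) : C ↥G := by
  apply main_embed hC hM (grd 𝒜 ι) (grd_injective 𝒜 ι hι)
  rw [grd_zero, mapG2_comp, ← Subgroup.map_map]
  exact C_map hC _ (mapG2_injective hι) _ hG

end graded

end

end Pool.Agent.R933.FJ
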