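import Pool.Agent.R933.FJ.Nag

/-!
# Generation: the Euclidean algorithm over a division ring
-/

set_option autoImplicit false
set_option linter.unusedSimpArgs false

namespace Pool.Agent.R933.FJ

open Polynomial Pool.Agent.Y110.FJ

section abs

variable {Γ Q : Type} [Group Γ] [Group Q]

theorem aux_mul (g h a b : Γ) :
    g * h * (a * b)⁻¹ = g * a⁻¹ * (a * (h * b⁻¹) * a⁻¹) := by group

theorem aux_inv (g a : Γ) :
    g⁻¹ * (a⁻¹)⁻¹ = a⁻¹ * (g * a⁻¹)⁻¹ * (a⁻¹)⁻¹ := by group

/-- the products of elements of `M` and of the image of `s` -/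
def prodSub (ev : Γ →* Q) (s : Q →* Γ) (M : Subgroup Γ)
    (hc : ∀ (q : Q) (x : Γ), x ∈ M → s q * x * (s q)⁻¹ ∈ M) : Subgroup Γ where
  carrier := {g | g * (s (ev g))⁻¹ ∈ M}
  one_mem' := by
    show (1 : Γ) * (s (ev 1))⁻¹ ∈ M
    rw [map_one, map_one, inv_one, mul_one]
    exact M.one_mem
  mul_mem' := by
    intro g h hg hh
    show g * h * (s (ev (g * h)))⁻¹ ∈ M
    rw [map_mul, map_mul, aux_mul]
    exact M.mul_mem hg (hc (ev g) _ hh)
  inv_mem' := by
    intro g hg
    show g⁻¹ * (s (ev g⁻¹))⁻¹ ∈ M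
    rw [map_inv, map_inv, aux_inv]
    have h1 := hc (ev g)⁻¹ _ (M.inv_mem hg)
    rwa [map_inv] at h1

theorem mem_prodSub (ev : Γ →* Q) (s : Q →* Γ) (M : Subgroup Γ)
    (hc : ∀ (q : Q) (x : Γ), x ∈ M → s q * x * (s q)⁻¹ ∈ M) {g : Γ} :
    g ∈ prodSub ev s M hc ↔ g * (s (ev g))⁻¹ ∈ M := Iff.rfl

end abs

section div

variable {D : Type} [DivisionRing D]

/-- evaluation at zero -/
noncomputable def ev0 (D : Type) [DivisionRing D] : G2 D[X] →* G2 D := mapG2 Polynomial.constantCoeff

/-- constant matrices -/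
noncomputable def cn (D : Type) [DivisionRing D] : G2 D →* G2 D[X] := mapG2 C

theorem ev0_cn (h : G2 D) : ev0 D (cn D h) = h := by
  apply ext2 <;> simp [ev0, cn, mapG2_apply]

theorem ev0_up (f : D[X]) : ev0 D (up f) = up (f.coeff 0) := by
  unfold ev0
  rw [map_up]
  rfl

/-- the subgroup generated by the unipotent groups -/
noncomputable def MM (D : Type) [DivisionRing D] : Subgroup (G2 D[X]) := ⨆ i : Lin D, UU i

theorem MM_le : MM D ≤ (ev0 D).ker := by
  refine iSup_le fun i => ?_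
  rintro _ ⟨f, hf, rfl⟩
  rw [MonoidHom.mem_ker, map_mul, map_mul, map_inv, ev0_up, hf, up_zero]
  group

theorem mem_MM (h : G2 D) (f : D[X]) (hf : f.coeff 0 = 0) :
    cn D h * up f * (cn D h)⁻¹ ∈ MM D := by
  have h1 : cn D h * up f * (cn D h)⁻¹ ∈ UU (QuotientGroup.mk h : Lin D) := by
    rw [UU_mk]
    exact ⟨f, hf, rfl⟩
  exact (le_iSup (fun i : Lin D => UU i) _) h1

theorem MM_conj (q : G2 D) {x : G2 D[X]} (hx : x ∈ MM D) :
    cn D q * x * (cn D q)⁻¹ ∈ MM D := by
  have hle : MM D ≤ (MM D).comap (MulAut.conj (cn D q)).toMonoidHom := by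
    refine iSup_le fun i => ?_
    intro y hy
    rw [Subgroup.mem_comap]
    exact (le_iSup (fun i : Lin D => UU i) _) ((UU_conj q i y).1 hy)
  exact hle hx

/-- the matrices that are products of elements of `MM` and constants -/
noncomputable def HH (D : Type) [DivisionRing D] : Subgroup (G2 D[X]) :=
  prodSub (ev0 D) (cn D) (MM D) (fun q _ hx => MM_conj q hx)

theorem mem_HH {g : G2 D[X]} : g ∈ HH D ↔ g * (cn D (ev0 D g))⁻¹ ∈ MM D :=
  mem_prodSub _ _ _ _

theorem cn_mem (h : G2 D) : cn D h ∈ HH D := by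
  rw [mem_HH, ev0_cn, mul_inv_cancel]
  exact (MM D).one_mem

theorem up_mem (f : D[X]) : up f ∈ HH D := by
  rw [mem_HH, ev0_up]
  have h1 : cn D (up (f.coeff 0)) = up (C (f.coeff 0)) := map_up _ _
  rw [h1, up_inv, up_mul]
  have h2 := mem_MM (D := D) 1 (f + -C (f.coeff 0)) (by simp)
  rwa [map_one, one_mul, inv_one, mul_one] at h2

theorem sw_mem : (sw : G2 D[X]) ∈ HH D := by
  have h1 : cn D sw = (sw : G2 D[X]) := map_sw _
  rw [← h1]
  exact cn_mem _

theorem const_of_mul_eq_one {b p : D[X]} (h : b * p = 1) : b = C (b.coeff 0) ∧ b.coeff 0 ≠ 0 := by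
  have hb : b ≠ 0 := by
    rintro rfl
    simp at h
  have hp : p ≠ 0 := by
    rintro rfl
    simp at h
  have h1 := natDegree_mul hb hp
  rw [h, natDegree_one] at h1
  have h2 : b = C (b.coeff 0) := eq_C_of_natDegree_eq_zero (by omega)
  refine ⟨h2, fun h3 => hb ?_⟩
  rw [h2, h3, C_0]

theorem base1 (g : G2 D[X]) (hg : g.val 0 1 = 0) : g ∈ HH D := by
  have e00 : (g * g⁻¹).val 0 0 = 1 := by rw [mul_inv_cancel]; simp
  have e01 : (g * g⁻¹).val 0 1 = 0 := by rw [mul_inv_cancel]; simp
  have e11 : (g * g⁻¹).val 1 1 = 1 := by rw [mul_inv_cancel]; simp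
  rw [mul_ent, hg, zero_mul, add_zero] at e00 e01
  have hb := const_of_mul_eq_one e00
  have hq : (g⁻¹).val 0 1 = 0 := by
    rcases mul_eq_zero.1 e01 with h | h
    · exfalso
      rw [h] at e00
      simp at e00
    · exact h
  rw [mul_ent, hq, mul_zero, zero_add] at e11
  have hd := const_of_mul_eq_one e11
  set β := (g.val 0 0).coeff 0 with hβ
  set δ := (g.val 1 1).coeff 0 with hδ
  have key : g = cn D (dg (Units.mk0 β hb.2) (Units.mk0 δ hd.2)) *
      (sw * up (C δ⁻¹ * g.val 1 0) * sw) := by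
    rw [low_eq]
    apply ext2
    · rw [mul_ent]
      simp [cn, mapG2_apply, dg00, dg01]
      exact hb.1
    · rw [mul_ent]
      simp [cn, mapG2_apply, dg00, dg01, hg]
    · rw [mul_ent]
      simp only [cn, mapG2_apply, dg10, dg11, Units.val_mk0, map_zero, zero_mul, zero_add,
        Matrix.of_apply, Matrix.cons_val_zero, Matrix.cons_val_one]
      rw [← mul_assoc, ← C_mul, mul_inv_cancel₀ hd.2, C_1, one_mul]
    · rw [mul_ent]
      simp [cn, mapG2_apply, dg10, dg11]
      exact hd.1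
  rw [key]
  exact (HH D).mul_mem (cn_mem _) ((HH D).mul_mem ((HH D).mul_mem sw_mem (up_mem _)) sw_mem)

theorem base0 (g : G2 D[X]) (hg : g.val 0 0 = 0) : g ∈ HH D := by
  have h1 : g * sw ∈ HH D := by
    apply base1
    rw [mul_ent, hg]
    simp [sw01, sw11]
  have h2 : g = g * sw * (sw)⁻¹ := by group
  rw [h2]
  exact (HH D).mul_mem h1 ((HH D).inv_mem sw_mem)

theorem all_mem : ∀ (n : ℕ) (g : G2 D[X]), (g.val 0 0 = 0 ∨ (g.val 0 0).natDegree < n) →
    g ∈ HH D := by
  intro n
  induction n with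
  | zero =>
    intro g hg
    rcases hg with h | h
    · exact base0 g h
    · exact absurd h (Nat.not_lt_zero _)
  | succ n ih =>
    intro g hg
    by_cases h0 : g.val 0 0 = 0
    · exact base0 g h0
    have hlt := hg.resolve_left h0
    set a := g.val 0 0 with ha
    set b := g.val 0 1 with hb
    have hα : a.leadingCoeff⁻¹ ≠ 0 := inv_ne_zero (leadingCoeff_ne_zero.2 h0)
    set a' := a * C a.leadingCoeff⁻¹ with ha'
    have hmon : a'.Monic := monic_mul_leadingCoeff_inv h0
    have hdeg : a'.natDegree = a.natDegree := by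
      rw [ha', natDegree_mul h0 (by rwa [Ne, C_eq_zero]), natDegree_C, add_zero]
    set t : G2 D[X] := cn D (dg (Units.mk0 _ hα) 1) * up (-(b /ₘ a')) * sw with ht
    have htm : t ∈ HH D := (HH D).mul_mem ((HH D).mul_mem (cn_mem _) (up_mem _)) sw_mem
    have h00 : (g * t).val 0 0 = b %ₘ a' := by
      have h1 : (g * cn D (dg (Units.mk0 _ hα) 1)).val 0 0 = a' := by
        rw [mul_ent]
        simp [cn, mapG2_apply, dg00, dg10, ha']
        exact Or.inl rfl
      have h2 : (g * cn D (dg (Units.mk0 _ hα) 1)).val 0 1 = b := by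
        rw [mul_ent]
        simp [cn, mapG2_apply, dg01, dg11, hb]
      rw [ht, ← mul_assoc, ← mul_assoc, mul_ent, mul_ent, mul_ent _ (up _), h1, h2, sw00, sw10,
        up01, up11, mul_zero, zero_add, mul_one, mul_one]
      have h3 := modByMonic_add_div b a'
      have h4 : b %ₘ a' = b - a' * (b /ₘ a') := by rw [eq_sub_iff_add_eq]; exact h3
      rw [h4, mul_neg]
      abel
    have hgt : g * t ∈ HH D := by
      apply ih
      rw [h00]
      by_cases hr : b %ₘ a' = 0
      · exact Or.inl hr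
      · right
        have h5 := natDegree_lt_natDegree hr (degree_modByMonic_lt b hmon)
        omega
    have h6 : g = g * t * t⁻¹ := by group
    rw [h6]
    exact (HH D).mul_mem hgt ((HH D).inv_mem htm)

theorem MM_eq : MM D = (ev0 D).ker := by
  apply le_antisymm MM_le
  intro g hg
  have h1 : g ∈ HH D := all_mem ((g.val 0 0).natDegree + 1) g (Or.inr (Nat.lt_succ_self _))
  rw [mem_HH, MonoidHom.mem_ker.1 hg, map_one, inv_one, mul_one] at h1
  exact h1

theorem UU_free : FreeFam (fun i : Lin D => UU i) := by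
  have : Nontrivial (Lin D) := by
    rw [← Cardinal.one_lt_iff_nontrivial]
    refine lt_of_lt_of_le ?_ three_lines
    norm_num
  refine Monoid.CoprodI.lift_injective_of_ping_pong (fun i : Lin D => (UU i).subtype)
    (Or.inl three_lines) XX XX_nonempty (fun i j hij => XX_disj i j hij) ?_
  intro i j hij x hx
  rintro _ ⟨v, hv, rfl⟩
  exact ping i j hij x.1 x.2 (fun h => hx (Subtype.ext h)) v hv

/-- **subgroups of `GL_2(D[X])`** -/
theorem main_div {C : ∀ (G : Type) [Group G], Prop} (hC : ClosedE C) (hM : HasMetabelian C)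
    (G : Subgroup (G2 D[X])) (hG : C ↥(G.map (ev0 D))) : C ↥G := by
  have hker : ∀ i : Lin D, UU i ≤ (ev0 D).ker := fun i =>
    (le_iSup (fun i : Lin D => UU i) i).trans MM_le
  have h1 : C ↥((G.map (ev0 D)).comap (ev0 D)) := by
    refine ambient hC (ev0 D) (cn D) ev0_cn (fun i : Lin D => UU i) UU_free MM_eq UU_conj ?_ ?_
      (G.map (ev0 D)) hG
    · intro i
      apply hM
      intro x _ y _
      exact Subtype.ext (UU_comm i x x.2 y y.2)
    · intro i q hq
      refine metab hM (ev0 D) (cn D) ev0_cn (UU i) (UU_comm i) (hker i) q ?_ ?_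
      · intro x hx
        have h2 := (UU_conj q i x).1 hx
        rwa [hq] at h2
      · intro x hx
        have hq' : q⁻¹ • i = i := by rw [inv_smul_eq_iff, hq]
        have h2 := (UU_conj q⁻¹ i x).1 hx
        rw [hq'] at h2
        rw [show mapG2 Polynomial.C q⁻¹ = (cn D q)⁻¹ from map_inv (cn D) q, inv_inv] at h2
        exact h2
  exact hC.base.of_injective _ _ (Subgroup.inclusion (Subgroup.le_comap_map (ev0 D) G))
    (Subgroup.inclusion_injective _) h1

end div

end Pool.Agent.R933.FJ
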