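import Pool.Agent.R933.FJ.Amb

/-!
# `GL_2` over polynomial rings over division rings

The kernel of the evaluation at `0` is the free product of the groups of the unipotent matrices with
a given fixed line over the division ring.
-/

set_option autoImplicit false
set_option linter.unusedSimpArgs false

namespace Pool.Agent.R933.FJ

open Polynomial

/-- the group of the invertible `2 × 2` matrices -/
abbrev G2 (S : Type) [Ring S] : Type := (Matrix (Fin 2) (Fin 2) S)ˣ

/-- the entrywise image -/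
def mapG2 {S T : Type} [Ring S] [Ring T] (f : S →+* T) : G2 S →* G2 T :=
  Units.map (f.mapMatrix : Matrix (Fin 2) (Fin 2) S →+* Matrix (Fin 2) (Fin 2) T).toMonoidHom

section ring

variable {S T : Type} [Ring S] [Ring T]

theorem mapG2_apply (f : S →+* T) (g : G2 S) (i j : Fin 2) :
    (mapG2 f g).val i j = f (g.val i j) := rfl

theorem ext2 {g h : G2 S} (h00 : g.val 0 0 = h.val 0 0) (h01 : g.val 0 1 = h.val 0 1)
    (h10 : g.val 1 0 = h.val 1 0) (h11 : g.val 1 1 = h.val 1 1) : g = h := by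
  apply Units.ext
  apply Matrix.ext
  rw [Fin.forall_fin_two]
  exact ⟨Fin.forall_fin_two.2 ⟨h00, h01⟩, Fin.forall_fin_two.2 ⟨h10, h11⟩⟩

theorem mul_ent (g h : G2 S) (i j : Fin 2) :
    (g * h).val i j = g.val i 0 * h.val 0 j + g.val i 1 * h.val 1 j := by
  rw [Units.val_mul, Matrix.mul_apply, Fin.sum_univ_two]

theorem one_ent (i j : Fin 2) : (1 : G2 S).val i j = if i = j then 1 else 0 := by
  rw [Units.val_one, Matrix.one_apply]

/-- upper transvections -/
def up (s : S) : G2 S where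
  val := !![1, s; 0, 1]
  inv := !![1, -s; 0, 1]
  val_inv := by simp [Matrix.mul_fin_two, Matrix.one_fin_two]
  inv_val := by simp [Matrix.mul_fin_two, Matrix.one_fin_two]

/-- the transposition -/
def sw : G2 S where
  val := !![0, 1; 1, 0]
  inv := !![0, 1; 1, 0]
  val_inv := by simp [Matrix.mul_fin_two, Matrix.one_fin_two]
  inv_val := by simp [Matrix.mul_fin_two, Matrix.one_fin_two]

/-- diagonal matrices -/
def dg (a d : Sˣ) : G2 S where
  val := !![a.val, 0; 0, d.val]
  inv := !![a⁻¹.val, 0; 0, d⁻¹.val]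
  val_inv := by simp [Matrix.mul_fin_two, Matrix.one_fin_two]
  inv_val := by simp [Matrix.mul_fin_two, Matrix.one_fin_two]

theorem up00 (s : S) : (up s).val 0 0 = 1 := rfl
theorem up01 (s : S) : (up s).val 0 1 = s := rfl
theorem up10 (s : S) : (up s).val 1 0 = 0 := rfl
theorem up11 (s : S) : (up s).val 1 1 = 1 := rfl
theorem sw00 : (sw : G2 S).val 0 0 = 0 := rfl
theorem sw01 : (sw : G2 S).val 0 1 = 1 := rfl
theorem sw10 : (sw : G2 S).val 1 0 = 1 := rfl
theorem sw11 : (sw : G2 S).val 1 1 = 0 := rfl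
theorem dg00 (a d : Sˣ) : (dg a d).val 0 0 = a := rfl
theorem dg01 (a d : Sˣ) : (dg a d).val 0 1 = 0 := rfl
theorem dg10 (a d : Sˣ) : (dg a d).val 1 0 = 0 := rfl
theorem dg11 (a d : Sˣ) : (dg a d).val 1 1 = d := rfl

theorem up_mul (s t : S) : up s * up t = up (s + t) := by
  apply ext2 <;> simp [mul_ent, up00, up01, up10, up11, add_comm]

theorem up_zero : up (0 : S) = 1 := by
  apply ext2 <;> simp [up00, up01, up10, up11]

theorem up_inv (s : S) : (up s)⁻¹ = up (-s) := by
  rw [inv_eq_iff_mul_eq_one, up_mul, add_neg_cancel, up_zero]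

theorem map_up (f : S →+* T) (s : S) : mapG2 f (up s) = up (f s) := by
  apply ext2 <;> simp [mapG2_apply, up00, up01, up10, up11]

theorem map_sw (f : S →+* T) : mapG2 f (sw : G2 S) = sw := by
  apply ext2 <;> simp [mapG2_apply, sw00, sw01, sw10, sw11]

theorem low_eq (s : S) : sw * up s * sw = (⟨!![1, 0; s, 1], !![1, 0; -s, 1],
    by simp [Matrix.mul_fin_two, Matrix.one_fin_two],
    by simp [Matrix.mul_fin_two, Matrix.one_fin_two]⟩ : G2 S) := by
  apply ext2 <;>
    simp [mul_ent, up00, up01, up10, up11, sw00, sw01, sw10, sw11]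

theorem mapG2_injective {f : S →+* T} (hf : Function.Injective f) :
    Function.Injective (mapG2 f) := by
  intro g h hgh
  have : ∀ i j, g.val i j = h.val i j := by
    intro i j
    apply hf
    rw [← mapG2_apply, ← mapG2_apply, hgh]
  exact ext2 (this _ _) (this _ _) (this _ _) (this _ _)

/-- column vectors -/
def V2 (S : Type) : Type := Fin 2 → S

instance : MulAction (G2 S) (V2 S) where
  smul g v := fun i => g.val i 0 * v 0 + g.val i 1 * v 1
  one_smul v := by
    funext i
    show (1 : G2 S).val i 0 * v 0 + (1 : G2 S).val i 1 * v 1 = v i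
    revert i
    rw [Fin.forall_fin_two]
    constructor <;> simp
  mul_smul g h v := by
    funext i
    show (g * h).val i 0 * v 0 + (g * h).val i 1 * v 1 =
      g.val i 0 * (h.val 0 0 * v 0 + h.val 0 1 * v 1) +
      g.val i 1 * (h.val 1 0 * v 0 + h.val 1 1 * v 1)
    rw [mul_ent, mul_ent]
    noncomm_ring

theorem smul_def (g : G2 S) (v : V2 S) (i : Fin 2) :
    (g • v) i = g.val i 0 * v 0 + g.val i 1 * v 1 := rfl

end ring

section div

variable (D : Type) [DivisionRing D]

/-- the upper triangular matrices -/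
def Bor : Subgroup (G2 D) where
  carrier := {h | h.val 1 0 = 0}
  mul_mem' := by
    intro g h hg hh
    show (g * h).val 1 0 = 0
    rw [mul_ent, show g.val 1 0 = 0 from hg, show h.val 1 0 = 0 from hh]
    simp
  one_mem' := by
    show (1 : G2 D).val 1 0 = 0
    simp
  inv_mem' := by
    intro g hg
    have h0 : g.val 1 0 = 0 := hg
    show (g⁻¹).val 1 0 = 0
    have h1 : (g * g⁻¹).val 1 0 = 0 := by rw [mul_inv_cancel]; simp
    have h2 : (g * g⁻¹).val 1 1 = 1 := by rw [mul_inv_cancel]; simp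
    rw [mul_ent, h0, zero_mul, zero_add] at h1 h2
    rcases mul_eq_zero.1 h1 with h3 | h3
    · rw [h3, zero_mul] at h2
      exact absurd h2 (by simp)
    · exact h3

theorem mem_Bor {h : G2 D} : h ∈ Bor D ↔ h.val 1 0 = 0 := Iff.rfl

variable {D}

/-- the unipotent matrices over the polynomial ring with trivial value at `0` and given line -/
def Uh (h : G2 D) : Subgroup (G2 D[X]) where
  carrier := {x | ∃ f : D[X], f.coeff 0 = 0 ∧ x = mapG2 C h * up f * (mapG2 C h)⁻¹}
  mul_mem' := by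
    rintro _ _ ⟨f, hf, rfl⟩ ⟨g, hg, rfl⟩
    refine ⟨f + g, by rw [coeff_add, hf, hg, add_zero], ?_⟩
    rw [← up_mul]
    group
  one_mem' := ⟨0, by simp, by rw [up_zero]; group⟩
  inv_mem' := by
    rintro _ ⟨f, hf, rfl⟩
    refine ⟨-f, by rw [coeff_neg, hf, neg_zero], ?_⟩
    rw [← up_inv]
    group

theorem Uh_mono {h b : G2 D} (hb : b ∈ Bor D) {x : G2 D[X]} (hx : x ∈ Uh (h * b)) : x ∈ Uh h := by
  obtain ⟨f, hf, rfl⟩ := hx
  have hb0 : b.val 1 0 = 0 := hb
  have hbi : (b⁻¹).val 1 0 = 0 := (Bor D).inv_mem hb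
  have h11 : b.val 1 1 * (b⁻¹).val 1 1 = 1 := by
    have h2 : (b * b⁻¹).val 1 1 = 1 := by rw [mul_inv_cancel]; simp
    rwa [mul_ent, hb0, zero_mul, zero_add] at h2
  have h11' : (b⁻¹).val 1 1 * b.val 1 1 = 1 := by
    have h2 : (b⁻¹ * b).val 1 1 = 1 := by rw [inv_mul_cancel]; simp
    rwa [mul_ent, hbi, zero_mul, zero_add] at h2
  refine ⟨C (b.val 0 0) * f * C ((b⁻¹).val 1 1), ?_, ?_⟩
  · rw [coeff_mul_C, coeff_C_mul, hf]
    simp
  · have key : mapG2 C b * up f = up (C (b.val 0 0) * f * C ((b⁻¹).val 1 1)) * mapG2 C b := by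
      apply ext2
      · simp [mul_ent, up00, up01, up10, up11, mapG2_apply, hb0]
      · simp only [mul_ent, up00, up01, up10, up11, mapG2_apply, one_mul, mul_one]
        rw [mul_assoc _ (C ((b⁻¹).val 1 1)) (C (b.val 1 1)), ← C_mul, h11', C_1, mul_one, add_comm]
      · simp [mul_ent, up00, up01, up10, up11, mapG2_apply, hb0]
      · simp [mul_ent, up00, up01, up10, up11, mapG2_apply, hb0]
    rw [map_mul, mul_assoc (mapG2 C h), key]
    group

theorem Uh_eq {h h' : G2 D} (hb : h⁻¹ * h' ∈ Bor D) : Uh h = Uh h' := by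
  apply le_antisymm
  · intro x hx
    have h1 : h' * (h'⁻¹ * h) = h := by group
    have h2 : h'⁻¹ * h ∈ Bor D := by
      have := (Bor D).inv_mem hb
      rwa [mul_inv_rev, inv_inv] at this
    rw [← h1] at hx
    exact Uh_mono h2 hx
  · intro x hx
    have h1 : h * (h⁻¹ * h') = h' := by group
    rw [← h1] at hx
    exact Uh_mono hb hx

/-- the lines -/
abbrev Lin (D : Type) [DivisionRing D] : Type := G2 D ⧸ Bor D

/-- the unipotent groups of the lines -/
noncomputable def UU (i : Lin D) : Subgroup (G2 D[X]) := Uh i.out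

theorem UU_mk (h : G2 D) : UU (QuotientGroup.mk h : Lin D) = Uh h := by
  unfold UU
  apply Uh_eq
  obtain ⟨b, hb⟩ := QuotientGroup.mk_out_eq_mul (Bor D) h
  rw [hb, mul_inv_rev, mul_assoc, inv_mul_cancel, mul_one]
  exact (Bor D).inv_mem b.2

theorem UU_conj (q : G2 D) (i : Lin D) (x : G2 D[X]) :
    x ∈ UU i ↔ mapG2 C q * x * (mapG2 C q)⁻¹ ∈ UU (q • i) := by
  induction i using QuotientGroup.induction_on with
  | H h =>
    rw [UU_mk, show q • (QuotientGroup.mk h : Lin D) = QuotientGroup.mk (q * h) from rfl, UU_mk]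
    constructor
    · rintro ⟨f, hf, rfl⟩
      refine ⟨f, hf, ?_⟩
      rw [map_mul]
      group
    · rintro ⟨f, hf, h1⟩
      refine ⟨f, hf, ?_⟩
      have h2 : x = (mapG2 C q)⁻¹ * (mapG2 C q * x * (mapG2 C q)⁻¹) * mapG2 C q := by group
      rw [h2, h1, map_mul]
      group

theorem UU_comm (i : Lin D) : ∀ x ∈ UU i, ∀ y ∈ UU i, x * y = y * x := by
  rintro _ ⟨f, hf, rfl⟩ _ ⟨g, hg, rfl⟩
  have h1 : up f * up g = up g * up f := by rw [up_mul, up_mul, add_comm]
  calc _ = mapG2 C i.out * (up f * up g) * (mapG2 C i.out)⁻¹ := by group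
    _ = mapG2 C i.out * (up g * up f) * (mapG2 C i.out)⁻¹ := by rw [h1]
    _ = _ := by group

/-! ### ping-pong -/

/-- leading vectors -/
def Lead (v : V2 D[X]) (d : ℕ) (c : Fin 2 → D) : Prop :=
  ∀ k, (v k).natDegree ≤ d ∧ (v k).coeff d = c k

theorem lead_const {v : V2 D[X]} {d : ℕ} {c : Fin 2 → D} (h : Lead v d c) (q : G2 D) :
    Lead (mapG2 C q • v) d (fun k => q.val k 0 * c 0 + q.val k 1 * c 1) := by
  intro k
  rw [smul_def, mapG2_apply, mapG2_apply]
  constructor
  · apply natDegree_add_le_of_degree_le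
    · exact (natDegree_C_mul_le _ _).trans (h 0).1
    · exact (natDegree_C_mul_le _ _).trans (h 1).1
  · rw [coeff_add, coeff_C_mul, coeff_C_mul, (h 0).2, (h 1).2]

theorem lead_up {v : V2 D[X]} {d : ℕ} {c : Fin 2 → D} (h : Lead v d c) (f : D[X])
    (hf : 0 < f.natDegree) :
    Lead (up f • v) (f.natDegree + d) ![f.leadingCoeff * c 1, 0] := by
  have h0 : (v 0).coeff (f.natDegree + d) = 0 :=
    coeff_eq_zero_of_natDegree_lt (lt_of_le_of_lt (h 0).1 (by omega))
  have h1 : (v 1).coeff (f.natDegree + d) = 0 :=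
    coeff_eq_zero_of_natDegree_lt (lt_of_le_of_lt (h 1).1 (by omega))
  show ∀ k, _
  rw [Fin.forall_fin_two]
  constructor
  · rw [smul_def, up00, up01, one_mul]
    constructor
    · apply natDegree_add_le_of_degree_le
      · exact (h 0).1.trans (by omega)
      · exact natDegree_mul_le.trans (Nat.add_le_add_left (h 1).1 _)
    · rw [coeff_add, h0, zero_add, coeff_mul_add_eq_of_natDegree_le le_rfl (h 1).1, (h 1).2]
      rfl
  · rw [smul_def, up10, up11, one_mul, zero_mul, zero_add]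
    exact ⟨(h 1).1.trans (by omega), h1⟩

/-- vectors with leading vector in a given line -/
def XX (i : Lin D) : Set (V2 D[X]) :=
  {v | ∃ (d : ℕ) (a : D), a ≠ 0 ∧ Lead v d (fun k => i.out.val k 0 * a)}

theorem col_ne (h : G2 D) {a : D} (ha : a ≠ 0) : (fun k : Fin 2 => h.val k 0 * a) ≠ 0 := by
  intro h0
  have e0 : h.val 0 0 = 0 := by
    have := congrFun h0 0
    exact (mul_eq_zero.1 this).resolve_right ha
  have e1 : h.val 1 0 = 0 := by
    have := congrFun h0 1
    exact (mul_eq_zero.1 this).resolve_right ha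
  have h2 : (h⁻¹ * h).val 0 0 = 1 := by rw [inv_mul_cancel]; simp
  rw [mul_ent, e0, e1] at h2
  simp at h2

theorem lead_deg {v : V2 D[X]} {d d' : ℕ} {c c' : Fin 2 → D} (hc : c ≠ 0)
    (h : Lead v d c) (h' : Lead v d' c') : d ≤ d' := by
  by_contra hlt
  rw [not_le] at hlt
  apply hc
  funext k
  rw [← (h k).2]
  exact coeff_eq_zero_of_natDegree_lt (lt_of_le_of_lt (h' k).1 hlt)

theorem XX_disj (i j : Lin D) (hij : i ≠ j) : Disjoint (XX i) (XX j) := by
  rw [Set.disjoint_left]
  rintro v ⟨d, a, ha, h1⟩ ⟨d', a', ha', h2⟩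
  have hd : d = d' := le_antisymm (lead_deg (col_ne _ ha) h1 h2) (lead_deg (col_ne _ ha') h2 h1)
  subst hd
  apply hij
  have h3 : ∀ k, i.out.val k 0 * a = j.out.val k 0 * a' := fun k => (h1 k).2.symm.trans (h2 k).2
  rw [← QuotientGroup.out_eq' i, ← QuotientGroup.out_eq' j]
  rw [eq_comm, QuotientGroup.eq, mem_Bor, mul_ent]
  have h4 : ((j.out)⁻¹ * j.out).val 1 0 = 0 := by rw [inv_mul_cancel]; simp
  have h5 : ((j.out)⁻¹.val 1 0 * i.out.val 0 0 + (j.out)⁻¹.val 1 1 * i.out.val 1 0) * a = 0 := by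
    rw [add_mul, mul_assoc, mul_assoc, h3, h3, ← mul_assoc, ← mul_assoc, ← add_mul, ← mul_ent, h4,
      zero_mul]
  exact (mul_eq_zero.1 h5).resolve_right ha

theorem ping (i j : Lin D) (hij : i ≠ j) (x : G2 D[X]) (hx : x ∈ UU i) (hx1 : x ≠ 1)
    (v : V2 D[X]) (hv : v ∈ XX j) : x • v ∈ XX i := by
  obtain ⟨f, hf, rfl⟩ := hx
  obtain ⟨d, a, ha, h1⟩ := hv
  have hf0 : f ≠ 0 := by
    rintro rfl
    apply hx1
    rw [up_zero]
    group
  have hfd : 0 < f.natDegree := by
    rw [Nat.pos_iff_ne_zero]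
    intro h0
    apply hf0
    rw [eq_C_of_natDegree_eq_zero h0, hf, C_0]
  rw [← map_inv, mul_smul, mul_smul]
  have h2 := lead_const (lead_up (lead_const h1 (i.out)⁻¹) f hfd) i.out
  refine ⟨f.natDegree + d, f.leadingCoeff *
      ((i.out)⁻¹.val 1 0 * (j.out.val 0 0 * a) + (i.out)⁻¹.val 1 1 * (j.out.val 1 0 * a)), ?_, ?_⟩
  rotate_left
  · intro k
    have h3 := h2 k
    simp only [Matrix.cons_val_zero, Matrix.cons_val_one, mul_zero, add_zero] at h3
    exact h3
  · apply mul_ne_zero (leadingCoeff_ne_zero.2 hf0)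
    intro h3
    apply hij
    rw [← QuotientGroup.out_eq' i, ← QuotientGroup.out_eq' j]
    rw [QuotientGroup.eq, mem_Bor, mul_ent]
    rw [← mul_assoc, ← mul_assoc, ← add_mul] at h3
    exact (mul_eq_zero.1 h3).resolve_right ha

theorem XX_nonempty (i : Lin D) : (XX i).Nonempty := by
  refine ⟨fun k => C (i.out.val k 0), 0, 1, one_ne_zero, fun k => ?_⟩
  simp

theorem three_lines : (3 : Cardinal) ≤ Cardinal.mk (Lin D) := by
  let t : Fin 3 → Lin D := ![QuotientGroup.mk 1, QuotientGroup.mk sw, QuotientGroup.mk (sw * up 1 * sw)]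
  have ht : Function.Injective t := by
    have key : ∀ g h : G2 D, (g⁻¹ * h).val 1 0 ≠ 0 →
        (QuotientGroup.mk g : Lin D) ≠ QuotientGroup.mk h := by
      intro g h hgh heq
      rw [QuotientGroup.eq] at heq
      exact hgh heq
    have e01 : t 0 ≠ t 1 := by
      apply key
      rw [mul_ent]
      simp [sw00, sw10]
    have e02 : t 0 ≠ t 2 := by
      apply key
      rw [inv_one, one_mul, low_eq]
      simp
    have e12 : t 1 ≠ t 2 := by
      apply key
      rw [show (sw : G2 D)⁻¹ * (sw * up 1 * sw) = up 1 * sw by group, mul_ent, up10, up11, sw00,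
        sw10]
      simp
    intro x y hxy
    fin_cases x <;> fin_cases y <;> first
      | rfl
      | exact absurd hxy e01
      | exact absurd hxy e02
      | exact absurd hxy e12
      | exact absurd hxy.symm e01
      | exact absurd hxy.symm e02
      | exact absurd hxy.symm e12
  calc (3 : Cardinal) = Cardinal.mk (Fin 3) := by simp
    _ ≤ Cardinal.mk (Lin D) := Cardinal.mk_le_of_injective ht

end div

end Pool.Agent.R933.FJ
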